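import Mathlib

set_option autoImplicit false

/-!
Amalgamated products whose subgroups of finite index have no homomorphisms onto `ℤ`: one of the
factors is dense in the profinite topology.
-/

namespace Pool.Agent.L5helper66.PR

open Module

/-- `Λ` is the amalgamated product of its subgroups `A` and `B` over `A ⊓ B` (universal property). -/
def IsAmalgam {Λ : Type} [Group Λ] (A B : Subgroup Λ) : Prop :=
  ∀ (H : Type) [Group H] (f : A →* H) (g : B →* H),
    (∀ (x : Λ) (hA : x ∈ A) (hB : x ∈ B), f ⟨x, hA⟩ = g ⟨x, hB⟩) →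
    ∃! h : Λ →* H, (∀ a : A, h a = f a) ∧ ∀ b : B, h b = g b

/-- Every homomorphism from a normal subgroup of finite index to `ℚ` vanishes. -/
def NoRat (Λ : Type) [Group Λ] : Prop :=
  ∀ N : Subgroup Λ, N.Normal → N.index ≠ 0 → ∀ χ : N →* Multiplicative ℚ, χ = 1

section

variable {Λ : Type} [Group Λ]

theorem IsAmalgam.gen {A B : Subgroup Λ} (h : IsAmalgam A B) : A ⊔ B = ⊤ := by
  obtain ⟨r, ⟨hrA, hrB⟩, -⟩ := h ((A ⊔ B : Subgroup Λ)) (Subgroup.inclusion le_sup_left)
    (Subgroup.inclusion le_sup_right) (fun x hA hB => rfl)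
  obtain ⟨i, -, huniq⟩ := h Λ A.subtype B.subtype (fun x hA hB => rfl)
  have h1 := huniq (MonoidHom.id Λ) ⟨fun a => rfl, fun b => rfl⟩
  have h2 := huniq ((A ⊔ B : Subgroup Λ).subtype.comp r)
    ⟨fun a => by rw [MonoidHom.comp_apply, hrA]; rfl, fun b => by rw [MonoidHom.comp_apply, hrB]; rfl⟩
  rw [eq_top_iff]
  intro x _
  have h3 : (MonoidHom.id Λ) x = ((A ⊔ B : Subgroup Λ).subtype.comp r) x := by rw [h1, h2]
  have h4 : x = (r x : Λ) := h3
  rw [h4]
  exact (r x).2

end

section

variable {Q : Type} [Group Q]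

/-- the functions on `Q` invariant under left translation by `H` -/
def inv (H : Subgroup Q) : Submodule ℚ (Q → ℚ) where
  carrier := {f | ∀ h ∈ H, ∀ x, f (h * x) = f x}
  add_mem' := by
    intro a b ha hb h hh x
    simp [ha h hh x, hb h hh x]
  zero_mem' := by intro h _ x; rfl
  smul_mem' := by
    intro c a ha h hh x
    simp [ha h hh x]

theorem inv_anti {H K : Subgroup Q} (h : H ≤ K) : inv K ≤ inv H :=
  fun _ hf x hx y => hf x (h hx) y

/-- invariant functions are functions on the quotient -/
noncomputable def invEquiv (H : Subgroup Q) :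
    inv H ≃ₗ[ℚ] (Quotient (QuotientGroup.rightRel H) → ℚ) where
  toFun f := fun q => Quotient.lift f.1 (by
    intro a b hab
    rw [← Quotient.eq_iff_equiv, Quotient.eq, QuotientGroup.rightRel_apply] at hab
    have := f.2 _ hab a
    rw [inv_mul_cancel_right] at this
    exact this.symm) q
  map_add' := by
    intro a b
    funext q
    induction q using Quotient.inductionOn
    rfl
  map_smul' := by
    intro a b
    funext q
    induction q using Quotient.inductionOn
    rfl
  invFun f := ⟨fun x => f (Quotient.mk _ x), by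
    intro h hh x
    show f _ = f _
    congr 1
    rw [Quotient.eq, QuotientGroup.rightRel_apply, mul_inv_rev, mul_inv_cancel_left]
    exact H.inv_mem hh⟩
  left_inv := by
    intro f
    rfl
  right_inv := by
    intro f
    funext q
    induction q using Quotient.inductionOn
    rfl

theorem finrank_inv [Finite Q] (H : Subgroup Q) : finrank ℚ (inv H) = H.index := by
  classical
  have : Fintype Q := Fintype.ofFinite Q
  have : Fintype (Quotient (QuotientGroup.rightRel H)) := Fintype.ofFinite _
  rw [(invEquiv H).finrank_eq, finrank_pi, ← Nat.card_eq_fintype_card]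
  unfold Subgroup.index
  exact Nat.card_congr (QuotientGroup.quotientRightRelEquivQuotientLeftRel H)

theorem inv_sup (H K : Subgroup Q) : inv (H ⊔ K) = inv H ⊓ inv K := by
  apply le_antisymm
  · exact le_inf (inv_anti le_sup_left) (inv_anti le_sup_right)
  · rintro f ⟨hH, hK⟩
    let S : Subgroup Q :=
      { carrier := {h | ∀ x, f (h * x) = f x}
        mul_mem' := by
          intro a b ha hb x
          rw [mul_assoc, ha, hb]
        one_mem' := by intro x; rw [one_mul]
        inv_mem' := by
          intro a ha x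
          have := ha (a⁻¹ * x)
          rw [mul_inv_cancel_left] at this
          exact this.symm }
    have h1 : H ⊔ K ≤ S := sup_le (fun h hh => hH h hh) (fun h hh => hK h hh)
    exact fun h hh => h1 hh

/-- numbers of cosets: if the functions invariant under `C` are sums of functions invariant under
`A` and functions invariant under `B`, then one of `A`, `B` is everything and the other is `C` -/
theorem cosets [Finite Q] {A B C : Subgroup Q} (hCA : C ≤ A) (hCB : C ≤ B) (hAB : A ⊔ B = ⊤)
    (h : inv C ≤ inv A ⊔ inv B) : (A = C ∧ B = ⊤) ∨ (B = C ∧ A = ⊤) := by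
  have h1 : inv C = inv A ⊔ inv B :=
    le_antisymm h (sup_le (inv_anti hCA) (inv_anti hCB))
  have h2 := Submodule.finrank_sup_add_finrank_inf_eq (inv A) (inv B)
  rw [← h1, ← inv_sup, hAB, finrank_inv, finrank_inv, finrank_inv, finrank_inv,
    Subgroup.index_top] at h2
  have hA : A.index ≠ 0 := Subgroup.index_ne_zero_of_finite
  have hB : B.index ≠ 0 := Subgroup.index_ne_zero_of_finite
  have e1 := Subgroup.relIndex_mul_index hCA
  have e2 := Subgroup.relIndex_mul_index hCB
  have r1 : C.relIndex A ≠ 0 := by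
    intro h0
    rw [h0, zero_mul] at e1
    exact Subgroup.index_ne_zero_of_finite e1.symm
  have r2 : C.relIndex B ≠ 0 := by
    intro h0
    rw [h0, zero_mul] at e2
    exact Subgroup.index_ne_zero_of_finite e2.symm
  by_cases ha : C.relIndex A = 1
  · left
    refine ⟨le_antisymm (Subgroup.relIndex_eq_one.1 ha) hCA, ?_⟩
    rw [ha, one_mul] at e1
    rw [← Subgroup.index_eq_one]
    omega
  · by_cases hb : C.relIndex B = 1
    · right
      refine ⟨le_antisymm (Subgroup.relIndex_eq_one.1 hb) hCB, ?_⟩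
      rw [hb, one_mul] at e2
      rw [← Subgroup.index_eq_one]
      omega
    · exfalso
      have h3 : 2 * A.index ≤ C.index := by
        rw [← e1]
        exact Nat.mul_le_mul_right _ (by omega)
      have h4 : 2 * B.index ≤ C.index := by
        rw [← e2]
        exact Nat.mul_le_mul_right _ (by omega)
      omega

end

section

variable {Q : Type} [Group Q]

/-- left translation of functions -/
def act (q : Q) : (Q → ℚ) ≃+ (Q → ℚ) where
  toFun f := fun x => f (q⁻¹ * x)
  invFun f := fun x => f (q * x)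
  left_inv f := by funext x; simp
  right_inv f := by funext x; simp
  map_add' f g := rfl

theorem act_apply (q : Q) (f : Q → ℚ) (x : Q) : act q f x = f (q⁻¹ * x) := rfl

/-- left translation as an action on the multiplicative group -/
def phi : Q →* MulAut (Multiplicative (Q → ℚ)) where
  toFun q := AddEquiv.toMultiplicative (act q)
  map_one' := by
    refine MulEquiv.ext fun f => ?_
    apply Multiplicative.toAdd.injective
    funext x
    show (Multiplicative.toAdd f) (1⁻¹ * x) = _
    rw [inv_one, one_mul]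
    rfl
  map_mul' a b := by
    refine MulEquiv.ext fun f => ?_
    apply Multiplicative.toAdd.injective
    funext x
    show (Multiplicative.toAdd f) ((a * b)⁻¹ * x) = (Multiplicative.toAdd f) (b⁻¹ * (a⁻¹ * x))
    rw [mul_inv_rev, mul_assoc]

theorem phi_apply (q : Q) (f : Q → ℚ) :
    phi q (Multiplicative.ofAdd f) = Multiplicative.ofAdd (act q f) := rfl

theorem mem_inv_iff {H : Subgroup Q} {f : Q → ℚ} : f ∈ inv H ↔ ∀ h ∈ H, act h f = f := by
  constructor
  · intro hf h hh
    funext x
    rw [act_apply]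
    exact hf _ (H.inv_mem hh) x
  · intro hf h hh x
    have := congrFun (hf _ (H.inv_mem hh)) x
    rwa [act_apply, inv_inv] at this

end

section

variable {Λ : Type} [Group Λ]

/-- the derivation given by an invariant function -/
theorem deriv {A B : Subgroup Λ} (hAB : IsAmalgam A B) {Q : Type} [Group Q] (π : Λ →* Q)
    {v : Q → ℚ} (hv : v ∈ inv ((A ⊓ B).map π)) :
    ∃ d : Λ → Q → ℚ, (∀ x y, d (x * y) = d x + act (π x) (d y)) ∧ (∀ a ∈ A, d a = 0) ∧
      ∀ b ∈ B, d b = v - act (π b) v := by
  let i : Q →* (Multiplicative (Q → ℚ)) ⋊[phi] Q := SemidirectProduct.inr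
  let u : (Multiplicative (Q → ℚ)) ⋊[phi] Q := SemidirectProduct.inl (Multiplicative.ofAdd v)
  let f : A →* (Multiplicative (Q → ℚ)) ⋊[phi] Q := i.comp (π.comp A.subtype)
  let g : B →* (Multiplicative (Q → ℚ)) ⋊[phi] Q :=
    (MulAut.conj u).toMonoidHom.comp (i.comp (π.comp B.subtype))
  have hfg : ∀ (x : Λ) (hA : x ∈ A) (hB : x ∈ B), f ⟨x, hA⟩ = g ⟨x, hB⟩ := by
    intro x hA hB
    show i (π x) = u * i (π x) * u⁻¹
    rw [eq_mul_inv_iff_mul_eq]
    have h1 : act (π x) v = v := mem_inv_iff.1 hv _ ⟨x, ⟨hA, hB⟩, rfl⟩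
    have h2 := SemidirectProduct.inl_aut (φ := phi) (π x) (Multiplicative.ofAdd v)
    rw [phi_apply, h1] at h2
    show SemidirectProduct.inr (π x) * SemidirectProduct.inl (Multiplicative.ofAdd v) =
      SemidirectProduct.inl (Multiplicative.ofAdd v) * SemidirectProduct.inr (π x)
    conv_rhs => rw [h2]
    rw [map_inv]
    group
  obtain ⟨h, ⟨hhA, hhB⟩, -⟩ := hAB _ f g hfg
  obtain ⟨p, -, hp⟩ := hAB Q (π.comp A.subtype) (π.comp B.subtype) (fun x hA hB => rfl)
  have hr : ∀ x, (h x).right = π x := by
    have e1 := hp π ⟨fun a => rfl, fun b => rfl⟩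
    have e2 := hp (SemidirectProduct.rightHom.comp h) ⟨fun a => by
      rw [MonoidHom.comp_apply, hhA]; rfl, fun b => by
      rw [MonoidHom.comp_apply, hhB]
      show SemidirectProduct.rightHom (u * i (π b) * u⁻¹) = π b
      rw [map_mul, map_mul, map_inv]
      show SemidirectProduct.rightHom (SemidirectProduct.inl _) * SemidirectProduct.rightHom
        (SemidirectProduct.inr _) * (SemidirectProduct.rightHom (SemidirectProduct.inl _))⁻¹ = _
      rw [SemidirectProduct.rightHom_inl, SemidirectProduct.rightHom_inr]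
      simp⟩
    intro x
    have e3 : (SemidirectProduct.rightHom.comp h) x = π x := by rw [e2, e1]
    exact e3
  refine ⟨fun x => Multiplicative.toAdd (h x).left, ?_, ?_, ?_⟩
  · intro x y
    show Multiplicative.toAdd (h (x * y)).left = _
    rw [map_mul, SemidirectProduct.mul_left, hr]
    rfl
  · intro a ha
    show Multiplicative.toAdd (h a).left = 0
    have := hhA ⟨a, ha⟩
    rw [show h a = f ⟨a, ha⟩ from this]
    rfl
  · intro b hb
    show Multiplicative.toAdd (h b).left = _
    have := hhB ⟨b, hb⟩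
    rw [show h b = g ⟨b, hb⟩ from this]
    show Multiplicative.toAdd (u * i (π b) * u⁻¹).left = _
    have e : (u * i (π b) * u⁻¹).left =
        Multiplicative.ofAdd v * phi (π b) (Multiplicative.ofAdd v)⁻¹ := by
      rw [SemidirectProduct.mul_left, SemidirectProduct.mul_left]
      simp [u, i]
    rw [e, map_inv, phi_apply]
    show v + -(act (π b) v) = _
    rw [← sub_eq_add_neg]

/-- The derivation is inner, if there are no homomorphisms to `ℚ` on the kernel. -/
theorem inner {Q : Type} [Group Q] [Finite Q] (π : Λ →* Q) (hπ : Function.Surjective π)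
    (hN : ∀ χ : π.ker →* Multiplicative ℚ, χ = 1) (d : Λ → Q → ℚ)
    (hd : ∀ x y, d (x * y) = d x + act (π x) (d y)) :
    ∃ w : Q → ℚ, ∀ x, d x = w - act (π x) w := by
  classical
  have act_one : ∀ f : Q → ℚ, act 1 f = f := by
    intro f; funext x; rw [act_apply, inv_one, one_mul]
  have h0 : ∀ x ∈ π.ker, d x = 0 := by
    intro x hx
    funext q
    let χ : π.ker →* Multiplicative ℚ :=
      { toFun := fun y => Multiplicative.ofAdd (d y q)
        map_one' := by
          have := hd 1 1
          rw [mul_one, map_one, act_one] at this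
          have h1 : d 1 = 0 := by
            have h2 := congrArg (fun t => t - d 1) this
            simpa using h2.symm
          show Multiplicative.ofAdd (d 1 q) = 1
          rw [h1]; rfl
        map_mul' := by
          intro y z
          have := hd y z
          rw [MonoidHom.mem_ker.1 y.2, act_one] at this
          show Multiplicative.ofAdd (d (y * z) q) = _
          rw [this]; rfl }
    have h1 := DFunLike.congr_fun (hN χ) ⟨x, hx⟩
    exact Multiplicative.ofAdd.injective h1
  have h1 : ∀ x y, π x = π y → d x = d y := by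
    intro x y hxy
    have h2 : x = y * (y⁻¹ * x) := by rw [mul_inv_cancel_left]
    have h3 : y⁻¹ * x ∈ π.ker := by
      rw [MonoidHom.mem_ker, map_mul, map_inv, hxy, inv_mul_cancel]
    rw [h2, hd, h0 _ h3, map_zero, add_zero]
  choose s hs using hπ
  have : Fintype Q := Fintype.ofFinite Q
  have hc : (Fintype.card Q : ℚ) ≠ 0 := by
    exact_mod_cast Fintype.card_ne_zero
  refine ⟨(Fintype.card Q : ℚ)⁻¹ • ∑ q, d (s q), fun y => ?_⟩
  have h2 : act (π y) ((Fintype.card Q : ℚ)⁻¹ • ∑ q, d (s q)) =
      (Fintype.card Q : ℚ)⁻¹ • ∑ q, act (π y) (d (s q)) := by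
    funext x
    simp [act_apply, Finset.sum_apply]
  have h3 : ∀ q, act (π y) (d (s q)) = d (s (π y * q)) - d y := by
    intro q
    have : d (y * s q) = d (s (π y * q)) := by
      apply h1
      rw [map_mul, hs, hs]
    rw [← this, hd, add_sub_cancel_left]
  have h4 : ∑ q, act (π y) (d (s q)) = ∑ q, d (s q) - (Fintype.card Q : ℚ) • d y := by
    simp_rw [h3]
    rw [Finset.sum_sub_distrib]
    congr 1
    · exact Equiv.sum_comp (Equiv.mulLeft (π y)) (fun q => d (s q))
    · rw [Finset.sum_const, Finset.card_univ, Nat.cast_smul_eq_nsmul]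
  rw [h2, h4, smul_sub, smul_smul, inv_mul_cancel₀ hc, one_smul, sub_sub_cancel]

/-- **The dichotomy in every finite quotient.** -/
theorem dichotomy {A B : Subgroup Λ} (hAB : IsAmalgam A B) (hΛ : NoRat Λ) (N : Subgroup Λ)
    (hN : N.Normal) (hi : N.index ≠ 0) :
    (A ≤ (A ⊓ B) ⊔ N ∧ B ⊔ N = ⊤) ∨ (B ≤ (A ⊓ B) ⊔ N ∧ A ⊔ N = ⊤) := by
  have : N.FiniteIndex := ⟨hi⟩
  have : Finite (Λ ⧸ N) := inferInstance
  set π := QuotientGroup.mk' N with hπd
  have hπ : Function.Surjective π := QuotientGroup.mk'_surjective N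
  have hker : π.ker = N := QuotientGroup.ker_mk' N
  have h1 : inv ((A ⊓ B).map π) ≤ inv (A.map π) ⊔ inv (B.map π) := by
    intro v hv
    obtain ⟨d, hd, hdA, hdB⟩ := deriv hAB π hv
    obtain ⟨w, hw⟩ := inner π hπ (by
      rw [hker]; exact hΛ N hN hi) d hd
    rw [Submodule.mem_sup]
    refine ⟨w, ?_, v - w, ?_, by abel⟩
    · rw [mem_inv_iff]
      rintro _ ⟨a, ha, rfl⟩
      have := hw a
      rw [hdA a ha] at this
      exact (sub_eq_zero.1 this.symm).symm
    · rw [mem_inv_iff]
      rintro _ ⟨b, hb, rfl⟩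
      have := hw b
      rw [hdB b hb] at this
      rw [map_sub]
      have h2 : v - w = act (π b) v - act (π b) w := by
        rw [sub_eq_sub_iff_add_eq_add] at this ⊢
        rw [add_comm v, ← this.symm.trans (add_comm _ _)]; abel
      exact h2.symm
  have h2 := cosets (A := A.map π) (B := B.map π) (C := (A ⊓ B).map π)
    (Subgroup.map_mono inf_le_left) (Subgroup.map_mono inf_le_right)
    (by rw [← Subgroup.map_sup, hAB.gen]; exact Subgroup.map_top_of_surjective π hπ) h1
  have key : ∀ H K : Subgroup Λ, H.map π = K.map π → H ≤ K ⊔ N := by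
    intro H K h x hx
    have h3 : π x ∈ K.map π := h ▸ ⟨x, hx, rfl⟩
    obtain ⟨y, hy, hxy⟩ := h3
    have h4 : y⁻¹ * x ∈ N := by
      rw [← hker, MonoidHom.mem_ker, map_mul, map_inv, hxy, inv_mul_cancel]
    have h5 : x = y * (y⁻¹ * x) := by rw [mul_inv_cancel_left]
    rw [h5]
    exact mul_mem (Subgroup.mem_sup_left hy) (Subgroup.mem_sup_right h4)
  rcases h2 with ⟨h3, h4⟩ | ⟨h3, h4⟩
  · left
    refine ⟨key _ _ h3, top_le_iff.1 (key _ _ ?_)⟩
    rw [h4]; exact Subgroup.map_top_of_surjective π hπ
  · right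
    refine ⟨key _ _ h3, top_le_iff.1 (key _ _ ?_)⟩
    rw [h4]; exact Subgroup.map_top_of_surjective π hπ

/-- **The dichotomy for all finite quotients at once.** -/
theorem dense {A B : Subgroup Λ} (hAB : IsAmalgam A B) (hΛ : NoRat Λ) :
    (∀ N : Subgroup Λ, N.Normal → N.index ≠ 0 → A ≤ (A ⊓ B) ⊔ N ∧ B ⊔ N = ⊤) ∨
    (∀ N : Subgroup Λ, N.Normal → N.index ≠ 0 → B ≤ (A ⊓ B) ⊔ N ∧ A ⊔ N = ⊤) := by
  by_contra hcon
  push Not at hcon
  obtain ⟨⟨N₁, hN₁, hi₁, h₁⟩, N₂, hN₂, hi₂, h₂⟩ := hcon
  have hn : (N₁ ⊓ N₂).Normal := Subgroup.normal_inf_normal N₁ N₂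
  have hi : (N₁ ⊓ N₂).index ≠ 0 := Subgroup.index_inf_ne_zero hi₁ hi₂
  rcases dichotomy hAB hΛ _ hn hi with ⟨h3, h4⟩ | ⟨h3, h4⟩
  · apply h₁ (h3.trans (sup_le_sup_left inf_le_left _))
    rw [eq_top_iff, ← h4]
    exact sup_le_sup_left inf_le_left _
  · apply h₂ (h3.trans (sup_le_sup_left inf_le_right _))
    rw [eq_top_iff, ← h4]
    exact sup_le_sup_left inf_le_right _

end

end Pool.Agent.L5helper66.PR
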