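import Pool.Agent.Helper460_CSP.Bls
import Pool.Agent.L5helper66.PR.Am

set_option autoImplicit false

/-!
Groups with the same finite quotients as `SL(n, ℤ)`: no homomorphisms to `ℚ` on subgroups of finite
index.
-/

namespace Pool.Agent.L5helper66.PR

open Matrix Pool.Agent.Helper460_CSP

/-- a finite quotient of `SL(n, ℤ)` with an abelian normal subgroup of index `k` has bounded order -/
theorem card_le {n : ℕ} (hn : 3 ≤ n) (k : ℕ) (hk : k ≠ 0) {Q : Type} [Group Q] [Finite Q]
    (f : SpecialLinearGroup (Fin n) ℤ →* Q) (hf : Function.Surjective f) (M : Subgroup Q)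
    (hM : M.Normal) (hMk : M.index = k) (hab : ∀ x ∈ M, ∀ y ∈ M, x * y = y * x) :
    Nat.card Q ≤ Nat.card (SpecialLinearGroup (Fin n) (ZMod ((k : ℤ) ^ 2).natAbs)) := by
  have hk2 : ((k : ℤ) ^ 2) ≠ 0 := by positivity
  have : NeZero ((k : ℤ) ^ 2).natAbs := ⟨by
    intro h; exact hk2 (Int.natAbs_eq_zero.1 h)⟩
  obtain ⟨m, rfl⟩ : ∃ m, n = m + 3 := ⟨n - 3, by omega⟩
  have h1 : ∀ (i j : Fin (m + 3)) (h : i ≠ j), f (tv i j h k) ∈ M := by
    intro i j h
    have e : tv i j h (k : ℤ) = tv i j h 1 ^ k := by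
      have := tv_mul_zpow i j h 1 (k : ℤ)
      rw [one_mul] at this
      rw [this, zpow_natCast]
    rw [e, map_pow, ← hMk]
    exact M.pow_index_mem _
  have h2 : El (Fin (m + 3)) ((k : ℤ) ^ 2) ≤ f.ker := by
    apply El_le
    intro i j h
    obtain ⟨l, hl1, hl2⟩ : ∃ l : Fin (m + 3), l ≠ i ∧ l ≠ j := by
      have hc : ({i, j} : Finset (Fin (m + 3))).card < Fintype.card (Fin (m + 3)) := by
        rw [Fintype.card_fin]
        exact lt_of_le_of_lt Finset.card_le_two (by omega)
      obtain ⟨l, hl⟩ := Finset.exists_mem_notMem_of_card_lt_card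
        (s := ({i, j} : Finset (Fin (m + 3)))) (t := Finset.univ) (by rwa [Finset.card_univ])
      refine ⟨l, ?_, ?_⟩
      · rintro rfl; exact hl.2 (by simp)
      · rintro rfl; exact hl.2 (by simp)
    rw [MonoidHom.mem_ker]
    have e : tv i j h ((k : ℤ) ^ 2) =
        tv i l hl1.symm k * tv l j hl2 k * (tv i l hl1.symm k)⁻¹ * (tv l j hl2 k)⁻¹ := by
      rw [eq_mul_inv_iff_mul_eq, eq_mul_inv_iff_mul_eq]
      apply Subtype.ext
      show transvection i j _ * transvection l j _ * transvection i l _ =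
        transvection i l _ * transvection l j _
      unfold transvection
      simp only [mul_add, add_mul, mul_one, one_mul]
      have e1 : (single i j ((k : ℤ) ^ 2) : Matrix (Fin (m + 3)) (Fin (m + 3)) ℤ) *
          single l j (k : ℤ) = 0 := single_mul_single_of_ne _ _ _ _ hl2.symm _
      have e2 : (single i j ((k : ℤ) ^ 2) : Matrix (Fin (m + 3)) (Fin (m + 3)) ℤ) *
          single i l (k : ℤ) = 0 := single_mul_single_of_ne _ _ _ _ h.symm _
      have e3 : (single l j (k : ℤ) : Matrix (Fin (m + 3)) (Fin (m + 3)) ℤ) *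
          single i l (k : ℤ) = 0 := single_mul_single_of_ne _ _ _ _ h.symm _
      have e4 : (single i l (k : ℤ) : Matrix (Fin (m + 3)) (Fin (m + 3)) ℤ) *
          single l j (k : ℤ) = single i j ((k : ℤ) ^ 2) := by
        rw [single_mul_single_same, sq]
      rw [e1, e2, e3, e4, zero_mul]
      abel
    rw [e, map_mul, map_mul, map_mul, map_inv, map_inv, hab _ (h1 _ _ _) _ (h1 _ _ _)]
    group
  have h3 : (SpecialLinearGroup.map (n := Fin (m + 3))
      (Int.castRingHom (ZMod ((k : ℤ) ^ 2).natAbs))).ker ≤ f.ker := by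
    intro A hA
    exact h2 (bls hk2 m A (cgr_iff.2 hA))
  have h4 : Nat.card Q = f.ker.index := by
    rw [Subgroup.index_ker, MonoidHom.range_eq_top.2 hf]
    exact (Nat.card_congr Subgroup.topEquiv.toEquiv).symm
  have h5 := Subgroup.index_ker (SpecialLinearGroup.map (n := Fin (m + 3))
      (Int.castRingHom (ZMod ((k : ℤ) ^ 2).natAbs)))
  rw [h4]
  have h6 : (SpecialLinearGroup.map (n := Fin (m + 3))
      (Int.castRingHom (ZMod ((k : ℤ) ^ 2).natAbs))).ker.index ≠ 0 := by
    rw [h5]; exact Nat.card_pos.ne'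
  refine (Nat.le_of_dvd (Nat.pos_of_ne_zero h6) (Subgroup.index_dvd_of_le h3)).trans ?_
  rw [h5]
  exact Nat.card_le_card_of_injective _ Subtype.val_injective

/-- finite quotients with a large cyclic subgroup of a normal subgroup that is abelian -/
theorem exists_quotient {Λ : Type} [Group Λ] (hfg : Group.FG Λ) (N : Subgroup Λ) (hN : N.Normal)
    (hi : N.index ≠ 0) (χ : N →* Multiplicative ℚ) (hχ : χ ≠ 1) (s : ℕ) :
    ∃ (Q : Type) (_ : Group Q) (_ : Finite Q) (f : Λ →* Q) (M : Subgroup Q),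
      Function.Surjective f ∧ M.Normal ∧ M.index = N.index ∧ (∀ x ∈ M, ∀ y ∈ M, x * y = y * x) ∧
      s ≤ Nat.card Q := by
  classical
  have hNfi : N.FiniteIndex := ⟨hi⟩
  have hNfg : Group.FG N := Subgroup.fg_of_index_ne_zero N
  -- a common denominator
  obtain ⟨D, hD, hint⟩ : ∃ D : ℕ, D ≠ 0 ∧ ∀ x : N, ∃ z : ℤ, (D : ℚ) * Multiplicative.toAdd (χ x) = z := by
    obtain ⟨S, hS⟩ := hNfg.out
    refine ⟨∏ x ∈ S, (Multiplicative.toAdd (χ x)).den, ?_, ?_⟩
    · exact Finset.prod_ne_zero_iff.2 fun x _ => (Multiplicative.toAdd (χ x)).den_nz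
    · set D : ℕ := ∏ x ∈ S, (Multiplicative.toAdd (χ x)).den with hDd
      let K : Subgroup N :=
        { carrier := {x | ∃ z : ℤ, (D : ℚ) * Multiplicative.toAdd (χ x) = z}
          mul_mem' := by
            rintro a b ⟨z, hz⟩ ⟨w, hw⟩
            refine ⟨z + w, ?_⟩
            rw [map_mul, toAdd_mul, mul_add, hz, hw]; push_cast; ring
          one_mem' := ⟨0, by simp⟩
          inv_mem' := by
            rintro a ⟨z, hz⟩
            refine ⟨-z, ?_⟩
            rw [map_inv, toAdd_inv, mul_neg, hz]; push_cast; ring }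
      have hK : K = ⊤ := by
        rw [eq_top_iff, ← hS, Subgroup.closure_le]
        intro x hx
        obtain ⟨c, hc⟩ : (Multiplicative.toAdd (χ x)).den ∣ D := Finset.dvd_prod_of_mem _ hx
        refine ⟨c * (Multiplicative.toAdd (χ x)).num, ?_⟩
        rw [hc]
        push_cast
        have := Rat.den_mul_eq_num (Multiplicative.toAdd (χ x))
        rw [← this]; ring
      intro x
      have : x ∈ K := hK ▸ Subgroup.mem_top x
      exact this
  choose z hz using hint
  have hDq : (D : ℚ) ≠ 0 := by exact_mod_cast hD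
  have hzm : ∀ a b, z (a * b) = z a + z b := by
    intro a b
    have : ((z (a * b) : ℤ) : ℚ) = z a + z b := by
      rw [← hz, ← hz, ← hz, map_mul, toAdd_mul, mul_add]
    exact_mod_cast this
  have hz1 : z 1 = 0 := by have := hzm 1 1; rw [mul_one] at this; omega
  obtain ⟨x₀, hx₀⟩ : ∃ x₀, z x₀ ≠ 0 := by
    by_contra hcon
    push Not at hcon
    apply hχ
    ext x
    have h1 := hz x
    rw [hcon x] at h1
    have h2 : Multiplicative.toAdd (χ x) = 0 := by
      rcases mul_eq_zero.1 (h1.trans Int.cast_zero) with h | h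
      · exact absurd h hDq
      · exact h
    exact congrArg Multiplicative.ofAdd h2
  -- the modulus
  set m : ℕ := (z x₀).natAbs * s with hm
  rcases Nat.eq_zero_or_pos s with hs | hs
  · subst hs
    refine ⟨Λ ⧸ N, inferInstance, inferInstance, QuotientGroup.mk' N, ⊥,
      QuotientGroup.mk'_surjective N, inferInstance, ?_, ?_, Nat.zero_le _⟩
    · rw [Subgroup.index_bot]; rfl
    · intro x hx y hy
      rw [Subgroup.mem_bot.1 hx, Subgroup.mem_bot.1 hy]
  have hm0 : m ≠ 0 := Nat.mul_ne_zero (Int.natAbs_ne_zero.2 hx₀) hs.ne'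
  have hmz : NeZero m := ⟨hm0⟩
  let ζ : N →* Multiplicative (ZMod m) :=
    { toFun := fun x => Multiplicative.ofAdd ((z x : ℤ) : ZMod m)
      map_one' := by rw [hz1]; simp
      map_mul' := by
        intro a b
        rw [hzm]; push_cast; rfl }
  set K0 : Subgroup Λ := ζ.ker.map N.subtype with hK0
  have hK0N : K0 ≤ N := by
    rintro _ ⟨x, -, rfl⟩; exact x.2
  have hK0i : K0.index ≠ 0 := by
    have e := Subgroup.relIndex_mul_index hK0N
    have e2 : K0.relIndex N = ζ.ker.index := by
      rw [Subgroup.relIndex, hK0]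
      congr 1
      ext x
      rw [Subgroup.mem_subgroupOf]
      constructor
      · rintro ⟨y, hy, hyx⟩
        have : y = x := Subtype.ext hyx
        rwa [this] at hy
      · intro hx; exact ⟨x, hx, rfl⟩
    have e3 : ζ.ker.index ≠ 0 := by
      rw [Subgroup.index_ker]
      exact Nat.card_pos.ne'
    rw [← e, e2]
    exact Nat.mul_ne_zero e3 hi
  have hK0f : K0.FiniteIndex := ⟨hK0i⟩
  set K : Subgroup Λ := K0.normalCore with hK
  have hKf : K.FiniteIndex := Subgroup.finiteIndex_normalCore K0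
  have hKN : K ≤ N := (Subgroup.normalCore_le K0).trans hK0N
  have hmem : ∀ x : N, (x : Λ) ∈ K0 ↔ (m : ℤ) ∣ z x := by
    intro x
    rw [hK0]
    constructor
    · rintro ⟨y, hy, hyx⟩
      have : y = x := Subtype.ext hyx
      rw [this] at hy
      have h1 : ((z x : ℤ) : ZMod m) = 0 := Multiplicative.ofAdd.injective (MonoidHom.mem_ker.1 hy)
      exact (ZMod.intCast_zmod_eq_zero_iff_dvd _ _).1 h1
    · intro h
      refine ⟨x, ?_, rfl⟩
      show ζ x = 1
      exact congrArg Multiplicative.ofAdd ((ZMod.intCast_zmod_eq_zero_iff_dvd _ _).2 h)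
  refine ⟨Λ ⧸ K, inferInstance, inferInstance, QuotientGroup.mk' K, N.map (QuotientGroup.mk' K),
    QuotientGroup.mk'_surjective K, hN.map _ (QuotientGroup.mk'_surjective K), ?_, ?_, ?_⟩
  · rw [Subgroup.index_map_eq _ (QuotientGroup.mk'_surjective K)]
    rwa [QuotientGroup.ker_mk']
  · rintro _ ⟨x, hx, rfl⟩ _ ⟨y, hy, rfl⟩
    rw [← map_mul, ← map_mul, QuotientGroup.mk'_apply, QuotientGroup.mk'_apply, QuotientGroup.eq]
    -- commutators are in the core
    intro g
    have hX : g * x * g⁻¹ ∈ N := hN.conj_mem x hx g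
    have hY : g * y * g⁻¹ ∈ N := hN.conj_mem y hy g
    set X : N := ⟨g * x * g⁻¹, hX⟩
    set Y : N := ⟨g * y * g⁻¹, hY⟩
    have e : g * ((x * y)⁻¹ * (y * x)) * g⁻¹ = (((X * Y)⁻¹ * (Y * X) : N) : Λ) := by
      show _ = (g * x * g⁻¹ * (g * y * g⁻¹))⁻¹ * (g * y * g⁻¹ * (g * x * g⁻¹))
      group
    rw [e]
    apply (hmem _).2
    have h2 : z ((X * Y)⁻¹ * (Y * X)) = 0 := by
      have h3 : z ((X * Y)) + z ((X * Y)⁻¹ * (Y * X)) = z (Y * X) := by
        rw [← hzm, mul_inv_cancel_left]
      rw [hzm X Y, hzm Y X] at h3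
      omega
    rw [h2]; exact dvd_zero _
  · -- the powers of `x₀` are different
    have hinj : Function.Injective (fun i : Fin s => (QuotientGroup.mk' K ((x₀ : Λ) ^ (i : ℕ)))) := by
      have hpow : ∀ i : ℕ, z (x₀ ^ i) = i * z x₀ := by
        intro i
        induction i with
        | zero => simp [hz1]
        | succ i ih => rw [pow_succ, hzm, ih]; push_cast; ring
      have key : ∀ i j : ℕ, i < s → j < s → i ≤ j →
          QuotientGroup.mk' K ((x₀ : Λ) ^ i) = QuotientGroup.mk' K ((x₀ : Λ) ^ j) → i = j := by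
        intro i j hi hj hij h
        rw [QuotientGroup.mk'_apply, QuotientGroup.mk'_apply, QuotientGroup.eq] at h
        have h1 : (((x₀ ^ i)⁻¹ * x₀ ^ j : N) : Λ) ∈ K0 := Subgroup.normalCore_le K0 h
        have h2 := (hmem _).1 h1
        have h3 : z ((x₀ ^ i)⁻¹ * x₀ ^ j) = ((j : ℤ) - i) * z x₀ := by
          have h4 : z (x₀ ^ i) + z ((x₀ ^ i)⁻¹ * x₀ ^ j) = z (x₀ ^ j) := by
            rw [← hzm, mul_inv_cancel_left]
          rw [hpow, hpow] at h4
          linarith
        rw [h3] at h2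
        by_contra hne
        have h5 : 0 < j - i := by omega
        have h6 : m ∣ (j - i) * (z x₀).natAbs := by
          have := Int.natAbs_dvd_natAbs.2 h2
          rw [Int.natAbs_mul, Int.natAbs_natCast] at this
          have e : ((j : ℤ) - i).natAbs = j - i := by omega
          rwa [e] at this
        have h7 := Nat.le_of_dvd (Nat.mul_pos h5 (Nat.pos_of_ne_zero (Int.natAbs_ne_zero.2 hx₀))) h6
        rw [hm, mul_comm] at h7
        have h8 := Nat.le_of_mul_le_mul_right h7 (Nat.pos_of_ne_zero (Int.natAbs_ne_zero.2 hx₀))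
        omega
      intro i j h
      apply Fin.ext
      rcases le_total (i : ℕ) j with hij | hij
      · exact key i j i.2 j.2 hij h
      · exact (key j i j.2 i.2 hij h.symm).symm
    have := Nat.card_le_card_of_injective _ hinj
    rwa [Nat.card_fin] at this

/-- A finitely generated group all of whose finite quotients are quotients of `SL(n, ℤ)`, `n ≥ 3`:
no homomorphism to `ℚ` on a normal subgroup of finite index. -/
theorem noRat {n : ℕ} (hn : 3 ≤ n) {Λ : Type} [Group Λ] (hfg : Group.FG Λ)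
    (hq : ∀ (Q : Type) [Group Q] [Finite Q], (∃ f : Λ →* Q, Function.Surjective f) →
      ∃ f : SpecialLinearGroup (Fin n) ℤ →* Q, Function.Surjective f) : NoRat Λ := by
  intro N hN hi χ
  by_contra hχ
  obtain ⟨Q, _, _, f, M, hf, hM, hMi, hab, hc⟩ := exists_quotient hfg N hN hi χ hχ
    (Nat.card (SpecialLinearGroup (Fin n) (ZMod ((N.index : ℤ) ^ 2).natAbs)) + 1)
  obtain ⟨f', hf'⟩ := hq Q ⟨f, hf⟩
  have := card_le hn N.index hi f' hf' M hM hMi hab
  omega

end Pool.Agent.L5helper66.PR
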